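import Pool.Agent.N641.DV.Basic

/-!
DV/TRF (helper415): isomorphisms between canonical structures transfer to other index sets.
-/

set_option autoImplicit false

namespace Pool.Agent.N415.DV

open FirstOrder FirstOrder.Language
open Pool.Agent.N641.DV

section

variable {L : FirstOrder.Language.{0, 0}} [L.IsRelational]
variable {Q T Q' T' J J' : Type} [L.Structure Q] [L.Structure T] [L.Structure Q']
  [L.Structure T'] {c : Q → T} {c' : Q' → T'}

omit [L.IsRelational] [L.Structure Q] [L.Structure T] in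
theorem cn_ext {x y : Cn c J} (h : x.1.1 = y.1.1) (h' : ∀ j, x.1.2 j = y.1.2 j) : x = y :=
  Subtype.ext (Prod.ext h (funext h'))

/-- the constant element -/
def cst (c : Q → T) (J : Type) (q : Q) : Cn c J :=
  ⟨(q, fun _ => c q), by
    refine Set.Finite.subset Set.finite_empty ?_
    intro k hk
    exact absurd rfl hk⟩

open Classical in
/-- a change of the value at one index -/
noncomputable def chg (z : Cn c J) (j : J) (t : T) : Cn c J :=
  ⟨(z.1.1, Function.update z.1.2 j t), by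
    refine (z.2.union (Set.finite_singleton j)).subset ?_
    intro k hk
    by_cases h : k = j
    · right
      exact h
    · left
      have h1 : Function.update z.1.2 j t k ≠ c z.1.1 := hk
      rw [Function.update_of_ne h] at h1
      exact h1⟩

omit [L.IsRelational] [L.Structure Q] [L.Structure T] in
theorem chg_self (z : Cn c J) (j : J) (t : T) : (chg z j t).1.2 j = t := by
  classical
  show Function.update z.1.2 j t j = t
  rw [Function.update_self]

omit [L.IsRelational] [L.Structure Q] [L.Structure T] in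
theorem chg_ne (z : Cn c J) {j k : J} (h : k ≠ j) (t : T) : (chg z j t).1.2 k = z.1.2 k := by
  classical
  show Function.update z.1.2 j t k = z.1.2 k
  rw [Function.update_of_ne h]

/-- the switching function -/
noncomputable def sC (g : Q → Q → Q → Q → Q)
    (hg : ∀ x y z w, c (g x y z w) = sw (c x) (c y) (c z) (c w)) (x y z w : Cn c J) : Cn c J :=
  ⟨(g x.1.1 y.1.1 z.1.1 w.1.1, fun j => sw (x.1.2 j) (y.1.2 j) (z.1.2 j) (w.1.2 j)), by
    refine (((x.2.union y.2).union z.2).union w.2).subset ?_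
    intro k hk
    by_contra hcon
    simp only [Set.mem_union, not_or] at hcon
    obtain ⟨⟨⟨h1, h2⟩, h3⟩, h4⟩ := hcon
    apply hk
    have h1' : x.1.2 k = c x.1.1 := not_not.1 h1
    have h2' : y.1.2 k = c y.1.1 := not_not.1 h2
    have h3' : z.1.2 k = c z.1.1 := not_not.1 h3
    have h4' : w.1.2 k = c w.1.1 := not_not.1 h4
    show sw (x.1.2 k) (y.1.2 k) (z.1.2 k) (w.1.2 k) = c (g x.1.1 y.1.1 z.1.1 w.1.1)
    rw [hg, h1', h2', h3', h4']⟩

theorem rel_sC {σ : L.Relations 5} (hσ : IsSw σ T) {g : Q → Q → Q → Q → Q}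
    (hg1 : ∀ t : Fin 5 → Q, Structure.RelMap σ t ↔ t 4 = g (t 0) (t 1) (t 2) (t 3))
    (hg : ∀ x y z w, c (g x y z w) = sw (c x) (c y) (c z) (c w)) (v : Fin 5 → Cn c J) :
    Structure.RelMap σ v ↔ v 4 = sC g hg (v 0) (v 1) (v 2) (v 3) := by
  show (Structure.RelMap σ (fun i => (v i).1.1) ∧ ∀ j, Structure.RelMap σ fun i => (v i).1.2 j) ↔ _
  rw [hg1]
  constructor
  · rintro ⟨h1, h2⟩
    exact cn_ext h1 fun j => (hσ _).1 (h2 j)
  · intro h
    refine ⟨?_, fun j => (hσ _).2 ?_⟩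
    · show (v 4).1.1 = _
      rw [h]
      rfl
    · show (v 4).1.2 j = _
      rw [h]
      rfl

/-- elements that differ only at `i` determine the coordinate `i` -/
theorem sC_eq_iff {g : Q → Q → Q → Q → Q}
    (hg : ∀ x y z w, c (g x y z w) = sw (c x) (c y) (c z) (c w))
    (hg2 : ∀ x z w, g x x z w = z) {w w' : Cn c J} {i : J} (h1 : w.1.1 = w'.1.1)
    (h2 : ∀ k, k ≠ i → w.1.2 k = w'.1.2 k) (h3 : w.1.2 i ≠ w'.1.2 i) (u v : Cn c J) :
    sC g hg w w' u v = u ↔ u.1.2 i = v.1.2 i := by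
  constructor
  · intro h
    have h4 : sw (w.1.2 i) (w'.1.2 i) (u.1.2 i) (v.1.2 i) = u.1.2 i :=
      congrArg (fun z : Cn c J => z.1.2 i) h
    rw [sw_of_ne h3] at h4
    exact h4.symm
  · intro h
    apply cn_ext
    · show g w.1.1 w'.1.1 u.1.1 v.1.1 = u.1.1
      rw [h1, hg2]
    · intro k
      show sw (w.1.2 k) (w'.1.2 k) (u.1.2 k) (v.1.2 k) = u.1.2 k
      by_cases hk : k = i
      · subst hk
        rw [sw_of_ne h3, h]
      · rw [sw_of_eq (h2 k hk)]

theorem pair_diff {g : Q → Q → Q → Q → Q}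
    (hg : ∀ x y z w, c (g x y z w) = sw (c x) (c y) (c z) (c w))
    (hg2 : ∀ x z w, g x x z w = z) {w w' : Cn c J}
    (hw : ∀ u v, sC g hg u v w w' = w ∨ sC g hg u v w w' = w') {i : J}
    (hi : w.1.2 i ≠ w'.1.2 i) : w.1.1 = w'.1.1 ∧ ∀ k, k ≠ i → w.1.2 k = w'.1.2 k := by
  rcases hw w (chg w i (w'.1.2 i)) with h | h
  · exfalso
    have h4 : sw (w.1.2 i) ((chg w i (w'.1.2 i)).1.2 i) (w.1.2 i) (w'.1.2 i) = w.1.2 i :=
      congrArg (fun z : Cn c J => z.1.2 i) h
    rw [chg_self, sw_of_ne hi] at h4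
    exact hi h4.symm
  · constructor
    · have h4 : g w.1.1 w.1.1 w.1.1 w'.1.1 = w'.1.1 := congrArg (fun z : Cn c J => z.1.1) h
      rw [hg2] at h4
      exact h4
    · intro k hk
      have h4 : sw (w.1.2 k) ((chg w i (w'.1.2 i)).1.2 k) (w.1.2 k) (w'.1.2 k) = w'.1.2 k :=
        congrArg (fun z : Cn c J => z.1.2 k) h
      rw [chg_ne w hk, sw_of_eq rfl] at h4
      exact h4

/-- the coordinate `j` corresponds to the coordinate `i` -/
def R0 (Φ : Cn c J → Cn c' J') (j : J) (i : J') : Prop :=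
  ∀ u v : Cn c J, u.1.2 j = v.1.2 j ↔ (Φ u).1.2 i = (Φ v).1.2 i

/-- also the typical values correspond to each other -/
def Good (Φ : Cn c J → Cn c' J') (j : J) (i : J') : Prop :=
  R0 Φ j i ∧ ∀ u : Cn c J, u.1.2 j = c u.1.1 ↔ (Φ u).1.2 i = c' (Φ u).1.1

theorem reg [Finite Q'] [Nontrivial T] [Nonempty J'] {σ : L.Relations 5} (hc : Law σ c)
    (hc' : Law σ c') (Φ : Cn c J ≃[L] Cn c' J') : {j | ¬ ∃ i, R0 Φ j i}.Finite := by
  classical
  obtain ⟨hσ, g, hg1, hg, hg2, hg3⟩ := hc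
  obtain ⟨hσ', g', hg1', hg', hg2', hg3'⟩ := hc'
  have hcomm : ∀ x y z w : Cn c J, Φ (sC g hg x y z w) = sC g' hg' (Φ x) (Φ y) (Φ z) (Φ w) := by
    intro x y z w
    have h1 : Structure.RelMap σ ![x, y, z, w, sC g hg x y z w] :=
      (rel_sC hσ hg1 hg _).2 rfl
    have h2 := (StrongHomClass.map_rel Φ σ ![x, y, z, w, sC g hg x y z w]).2 h1
    exact (rel_sC hσ' hg1' hg' _).1 h2
  rcases isEmpty_or_nonempty (Cn c J) with hE | ⟨⟨z0⟩⟩
  · refine Set.Finite.subset Set.finite_empty ?_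
    intro j hj
    apply hj
    exact ⟨Classical.arbitrary J', fun u => (hE.false u).elim⟩
  choose nt hnt using fun t : T => exists_ne t
  let z : J → Cn c J := fun j => chg z0 j (nt (z0.1.2 j))
  have hz1 : ∀ j, z0.1.2 j ≠ (z j).1.2 j := by
    intro j
    show _ ≠ (chg z0 j (nt (z0.1.2 j))).1.2 j
    rw [chg_self]
    exact (hnt _).symm
  have hz2 : ∀ j k, k ≠ j → z0.1.2 k = (z j).1.2 k := fun j k hk => (chg_ne z0 hk _).symm
  have hz3 : ∀ j, z0.1.1 = (z j).1.1 := fun j => rfl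
  have hpair : ∀ j (u v : Cn c J), sC g hg u v z0 (z j) = z0 ∨ sC g hg u v z0 (z j) = z j := by
    intro j u v
    by_cases h : u.1.2 j = v.1.2 j
    · left
      apply cn_ext
      · show g u.1.1 v.1.1 z0.1.1 z0.1.1 = z0.1.1
        rw [hg3]
      · intro k
        show sw (u.1.2 k) (v.1.2 k) (z0.1.2 k) ((z j).1.2 k) = z0.1.2 k
        by_cases hk : k = j
        · subst hk
          rw [sw_of_eq h]
        · rw [← hz2 j k hk]
          unfold sw
          split_ifs <;> rfl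
    · right
      apply cn_ext
      · show g u.1.1 v.1.1 z0.1.1 z0.1.1 = z0.1.1
        rw [hg3]
      · intro k
        show sw (u.1.2 k) (v.1.2 k) (z0.1.2 k) ((z j).1.2 k) = (z j).1.2 k
        by_cases hk : k = j
        · subst hk
          rw [sw_of_ne h]
        · rw [← hz2 j k hk]
          unfold sw
          split_ifs <;> rfl
  have hinj : Function.Injective Φ := Φ.injective
  have hsurj : Function.Surjective Φ := Φ.surjective
  have hreg : ∀ j i, (Φ z0).1.2 i ≠ (Φ (z j)).1.2 i → R0 Φ j i := by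
    intro j i hi u v
    have hw : ∀ u' v' : Cn c' J', sC g' hg' u' v' (Φ z0) (Φ (z j)) = Φ z0 ∨
        sC g' hg' u' v' (Φ z0) (Φ (z j)) = Φ (z j) := by
      intro u' v'
      obtain ⟨u, rfl⟩ := hsurj u'
      obtain ⟨v, rfl⟩ := hsurj v'
      rw [← hcomm]
      rcases hpair j u v with h | h
      · left
        rw [h]
      · right
        rw [h]
    obtain ⟨h1, h2⟩ := pair_diff hg' hg2' hw hi
    rw [← sC_eq_iff hg hg2 (hz3 j) (hz2 j) (hz1 j) u v,
      ← sC_eq_iff hg' hg2' h1 h2 hi (Φ u) (Φ v), ← hcomm]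
    exact hinj.eq_iff.symm
  refine Set.Finite.of_injOn (f := fun j => (Φ (z j)).1.1) (t := Set.univ)
    (fun _ _ => Set.mem_univ _) ?_ Set.finite_univ
  intro j hj j' hj' hjj
  have key : ∀ j, (¬ ∃ i, R0 Φ j i) → ∀ i, (Φ z0).1.2 i = (Φ (z j)).1.2 i := by
    intro j hj i
    by_contra hcon
    exact hj ⟨i, hreg j i hcon⟩
  have h1 : Φ (z j) = Φ (z j') := cn_ext hjj fun i => by
    rw [← key j hj i, ← key j' hj' i]
  have h2 := hinj h1
  by_contra hne
  have h3 := hz1 j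
  rw [h2, ← hz2 j' j hne] at h3
  exact h3 rfl

theorem R0_inj [Nontrivial T] {Φ : Cn c J → Cn c' J'} (u : Cn c J) {j j' : J} {i : J'}
    (h : R0 Φ j i) (h' : R0 Φ j' i) : j = j' := by
  by_contra hne
  obtain ⟨t, ht⟩ := exists_ne (u.1.2 j)
  have h1 := (h u (chg u j t)).trans (h' u (chg u j t)).symm
  rw [chg_self, chg_ne u (Ne.symm hne)] at h1
  exact ht (h1.2 rfl).symm

theorem good [Finite Q] [Finite Q'] [Nontrivial T] [Nonempty J'] [Infinite J] {σ : L.Relations 5}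
    (hc : Law σ c) (hc' : Law σ c') (Φ : Cn c J ≃[L] Cn c' J') (z0 : Cn c J) :
    {j | ¬ ∃ i, Good Φ j i}.Finite := by
  classical
  have hN := reg hc hc' Φ
  have hτ : ∃ τ : J → J', ∀ j, (∃ i, R0 Φ j i) → R0 Φ j (τ j) := by
    refine ⟨fun j => if h : ∃ i, R0 Φ j i then h.choose else Classical.arbitrary J', fun j h => ?_⟩
    simp only [dif_pos h]
    exact h.choose_spec
  obtain ⟨τ, hτ⟩ := hτ
  -- for every element almost all values at `τ j` are typical
  have hfin : ∀ u : Cn c J, {j | (∃ i, R0 Φ j i) ∧ (Φ u).1.2 (τ j) ≠ c' (Φ u).1.1}.Finite := by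
    intro u
    refine Set.Finite.of_injOn (f := τ) (t := {i | (Φ u).1.2 i ≠ c' (Φ u).1.1})
      (fun j hj => hj.2) ?_ (Φ u).2
    intro j hj j' hj' hjj
    have h1 := hτ j hj.1
    have h2 := hτ j' hj'.1
    rw [← hjj] at h2
    exact R0_inj z0 h1 h2
  have hkap : ∀ u : Cn c J, c' (Φ u).1.1 = c' (Φ (cst c J u.1.1)).1.1 := by
    intro u
    have hF := (((hN.union (hfin u)).union (hfin (cst c J u.1.1))).union u.2)
    obtain ⟨j, hj⟩ := hF.infinite_compl.nonempty
    simp only [Set.mem_compl_iff, Set.mem_union, not_or] at hj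
    obtain ⟨⟨⟨h1, h2⟩, h3⟩, h4⟩ := hj
    have h1' : ∃ i, R0 Φ j i := not_not.1 h1
    have h2' : (Φ u).1.2 (τ j) = c' (Φ u).1.1 := by
      by_contra hcon
      exact h2 ⟨h1', hcon⟩
    have h3' : (Φ (cst c J u.1.1)).1.2 (τ j) = c' (Φ (cst c J u.1.1)).1.1 := by
      by_contra hcon
      exact h3 ⟨h1', hcon⟩
    have h4' : u.1.2 j = c u.1.1 := not_not.1 h4
    rw [← h2', ← h3']
    exact (hτ j h1' u (cst c J u.1.1)).1 h4'
  have hF : ({j | ¬ ∃ i, R0 Φ j i} ∪ ⋃ q : Q, {j | (∃ i, R0 Φ j i) ∧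
      (Φ (cst c J q)).1.2 (τ j) ≠ c' (Φ (cst c J q)).1.1}).Finite :=
    hN.union (Set.finite_iUnion fun q => hfin _)
  refine hF.subset ?_
  intro j hj
  by_contra hcon
  simp only [Set.mem_union, Set.mem_iUnion, not_or, not_exists] at hcon
  obtain ⟨h1, h2⟩ := hcon
  have h1' : ∃ i, R0 Φ j i := by
    by_contra h
    push Not at h
    exact h1 h
  apply hj
  refine ⟨τ j, hτ j h1', fun u => ?_⟩
  have h2' : (Φ (cst c J u.1.1)).1.2 (τ j) = c' (Φ (cst c J u.1.1)).1.1 := by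
    by_contra h
    exact h2 u.1.1 ⟨h1', h⟩
  rw [hkap u, ← h2']
  exact hτ j h1' u (cst c J u.1.1)

/-- the element with typical values outside `G` -/
noncomputable def fil {K : Type} (G : Set J) (hG : G.Finite) (y : Cn c (K ⊕ G)) : Cn c J := by
  classical
  exact ⟨(y.1.1, fun j => if h : j ∈ G then y.1.2 (Sum.inr ⟨j, h⟩) else c y.1.1), by
    refine hG.subset ?_
    intro j hj
    by_contra h
    apply hj
    show (if h : j ∈ G then y.1.2 (Sum.inr ⟨j, h⟩) else c y.1.1) = c y.1.1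
    rw [dif_neg h]⟩

omit [L.IsRelational] [L.Structure Q] [L.Structure T] in
theorem fil_in {K : Type} (G : Set J) (hG : G.Finite) (y : Cn c (K ⊕ G)) (j : G) :
    (fil G hG y).1.2 j = y.1.2 (Sum.inr j) := by
  unfold fil
  simp

omit [L.IsRelational] [L.Structure Q] [L.Structure T] in
theorem fil_out {K : Type} (G : Set J) (hG : G.Finite) (y : Cn c (K ⊕ G)) {j : J} (hj : j ∉ G) :
    (fil G hG y).1.2 j = c y.1.1 := by
  unfold fil
  simp [hj]

/-- symmetric data from an isomorphism -/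
structure Dat (Φ : Cn c J → Cn c' J') (Ψ : Cn c' J' → Cn c J) (G : Set J) (G' : Set J')
    (φ : T → T') (ψ : T' → T) (j0 : J) (i0 : J') : Prop where
  inv : ∀ u, Ψ (Φ u) = u
  inv' : ∀ u, Φ (Ψ u) = u
  rel : ∀ n (S : L.Relations n) (v : Fin n → Cn c J), Structure.RelMap S v →
    Structure.RelMap S fun a => Φ (v a)
  rel' : ∀ n (S : L.Relations n) (v : Fin n → Cn c' J'), Structure.RelMap S v →
    Structure.RelMap S fun a => Ψ (v a)
  hG : G.Finite
  hG' : G'.Finite
  ex : ∀ i, i ∉ G' → ∃ j, j ∉ G ∧ ∀ u, u.1.2 j = c u.1.1 → (Φ u).1.2 i = c' (Φ u).1.1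
  ex' : ∀ j, j ∉ G → ∃ i, i ∉ G' ∧ ∀ u, u.1.2 i = c' u.1.1 → (Ψ u).1.2 j = c (Ψ u).1.1
  hj0 : j0 ∉ G
  hi0 : i0 ∉ G'
  g0 : ∀ u, u.1.2 j0 = c u.1.1 → (Φ u).1.2 i0 = c' (Φ u).1.1
  g0' : ∀ u, u.1.2 i0 = c' u.1.1 → (Ψ u).1.2 j0 = c (Ψ u).1.1
  hφ : ∀ u, φ (u.1.2 j0) = (Φ u).1.2 i0
  hψ : ∀ u, ψ (u.1.2 i0) = (Ψ u).1.2 j0

theorem Dat.symm {Φ : Cn c J → Cn c' J'} {Ψ : Cn c' J' → Cn c J} {G : Set J} {G' : Set J'}
    {φ : T → T'} {ψ : T' → T} {j0 : J} {i0 : J'} (D : Dat (L := L) Φ Ψ G G' φ ψ j0 i0) :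
    Dat (L := L) Ψ Φ G' G ψ φ i0 j0 :=
  ⟨D.inv', D.inv, D.rel', D.rel, D.hG', D.hG, D.ex', D.ex, D.hi0, D.hj0, D.g0', D.g0, D.hψ, D.hφ⟩

section
variable {Φ : Cn c J → Cn c' J'} {Ψ : Cn c' J' → Cn c J} {G : Set J} {G' : Set J'}
    {φ : T → T'} {ψ : T' → T} {j0 : J} {i0 : J'} (D : Dat (L := L) Φ Ψ G G' φ ψ j0 i0)

include D in
theorem Dat.phi_c {K : Type} (y : Cn c (K ⊕ G)) :
    φ (c y.1.1) = c' (Φ (fil G D.hG y)).1.1 := by
  rw [← fil_out G D.hG y D.hj0, D.hφ]
  exact D.g0 _ (fil_out G D.hG y D.hj0)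

/-- the map -/
noncomputable def Dat.F {K : Type} (y : Cn c (K ⊕ G)) : Cn c' (K ⊕ G') :=
  ⟨((Φ (fil G D.hG y)).1.1,
    Sum.elim (fun k => φ (y.1.2 (Sum.inl k))) fun i => (Φ (fil G D.hG y)).1.2 i), by
    have hfin : Finite G' := D.hG'
    refine ((y.2.preimage (Sum.inl_injective.injOn)).image Sum.inl |>.union
      (Set.finite_range (Sum.inr : G' → K ⊕ G'))).subset ?_
    rintro (k | i) hk
    · left
      refine ⟨k, ?_, rfl⟩
      intro h
      apply hk
      have h' : y.1.2 (Sum.inl k) = c y.1.1 := h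
      show φ (y.1.2 (Sum.inl k)) = c' (Φ (fil G D.hG y)).1.1
      rw [h', D.phi_c y]
    · right
      exact ⟨i, rfl⟩⟩

theorem Dat.fil_F {K : Type} (y : Cn c (K ⊕ G)) :
    fil G' D.hG' (D.F y) = Φ (fil G D.hG y) := by
  apply cn_ext
  · rfl
  · intro i
    by_cases hi : i ∈ G'
    · exact fil_in G' D.hG' (D.F y) ⟨i, hi⟩
    · rw [fil_out G' D.hG' (D.F y) hi]
      obtain ⟨j, hj, h⟩ := D.ex i hi
      exact (h _ (fil_out G D.hG y hj)).symm

theorem Dat.F_F {K : Type} (y : Cn c (K ⊕ G)) : D.symm.F (D.F y) = y := by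
  have h1 : Ψ (fil G' D.hG' (D.F y)) = fil G D.hG y := by
    rw [D.fil_F, D.inv]
  apply cn_ext
  · show (Ψ (fil G' D.hG' (D.F y))).1.1 = y.1.1
    rw [h1]
    rfl
  · rintro (k | j)
    · show ψ (φ (y.1.2 (Sum.inl k))) = y.1.2 (Sum.inl k)
      have h2 : ∀ t, ψ (φ t) = t := by
        intro t
        have h3 := D.hφ (chg (fil G D.hG y) j0 t)
        rw [chg_self] at h3
        rw [h3, D.hψ, D.inv, chg_self]
      exact h2 _
    · show (Ψ (fil G' D.hG' (D.F y))).1.2 j = y.1.2 (Sum.inr j)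
      rw [h1]
      exact fil_in G D.hG y j

theorem Dat.F_rel {K : Type} [Infinite K] (n : ℕ) (S : L.Relations n)
    (v : Fin n → Cn c (K ⊕ G)) (h : Structure.RelMap S v) :
    Structure.RelMap S fun a => D.F (v a) := by
  classical
  obtain ⟨h1, h2⟩ : Structure.RelMap S (fun i => (v i).1.1) ∧
    ∀ j, Structure.RelMap S fun i => (v i).1.2 j := h
  have hk : ∃ k : K, ∀ a, (v a).1.2 (Sum.inl k) = c (v a).1.1 := by
    have hF : (⋃ a, (Sum.inl ⁻¹' {j | (v a).1.2 j ≠ c (v a).1.1} : Set K)).Finite :=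
      Set.finite_iUnion fun a => (v a).2.preimage (Sum.inl_injective.injOn)
    obtain ⟨k, hk⟩ := hF.infinite_compl.nonempty
    refine ⟨k, fun a => ?_⟩
    by_contra hcon
    exact hk (Set.mem_iUnion.2 ⟨a, hcon⟩)
  obtain ⟨k, hk⟩ := hk
  have h3 : Structure.RelMap S fun a => c (v a).1.1 := by
    have := h2 (Sum.inl k)
    simp only [hk] at this
    exact this
  have h4 : ∀ j : J, Structure.RelMap S fun a => (fil G D.hG (v a)).1.2 j := by
    intro j
    by_cases hj : j ∈ G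
    · have : (fun a => (fil G D.hG (v a)).1.2 j) = fun a => (v a).1.2 (Sum.inr ⟨j, hj⟩) :=
        funext fun a => fil_in G D.hG (v a) ⟨j, hj⟩
      rw [this]
      exact h2 _
    · have : (fun a => (fil G D.hG (v a)).1.2 j) = fun a => c (v a).1.1 :=
        funext fun a => fil_out G D.hG (v a) hj
      rw [this]
      exact h3
  have h5 : Structure.RelMap S fun a => fil G D.hG (v a) := ⟨h1, h4⟩
  obtain ⟨h6, h7⟩ := D.rel n S _ h5
  refine ⟨h6, ?_⟩
  rintro (k | i)
  · show Structure.RelMap S fun a => φ ((v a).1.2 (Sum.inl k))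
    have h8 : Structure.RelMap S fun a => chg (fil G D.hG (v a)) j0 ((v a).1.2 (Sum.inl k)) := by
      refine ⟨h1, fun j => ?_⟩
      by_cases hj : j = j0
      · subst hj
        have : (fun a => (chg (fil G D.hG (v a)) j ((v a).1.2 (Sum.inl k))).1.2 j) =
            fun a => (v a).1.2 (Sum.inl k) := funext fun a => chg_self _ _ _
        rw [this]
        exact h2 _
      · have : (fun a => (chg (fil G D.hG (v a)) j0 ((v a).1.2 (Sum.inl k))).1.2 j) =
            fun a => (fil G D.hG (v a)).1.2 j := funext fun a => chg_ne _ hj _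
        rw [this]
        exact h4 j
    have h9 := (D.rel n S _ h8).2 i0
    have : (fun a => φ ((v a).1.2 (Sum.inl k))) = fun a =>
        (Φ (chg (fil G D.hG (v a)) j0 ((v a).1.2 (Sum.inl k)))).1.2 i0 := by
      funext a
      rw [← D.hφ, chg_self]
    rw [this]
    exact h9
  · exact h7 i

/-- the isomorphism -/
noncomputable def Dat.iso {K : Type} [Infinite K] : Cn c (K ⊕ G) ≃[L] Cn c' (K ⊕ G') where
  toFun := D.F
  invFun := D.symm.F
  left_inv := D.F_F
  right_inv := D.symm.F_F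
  map_fun' f := isEmptyElim f
  map_rel' {n} S v := by
    constructor
    · intro h
      have h1 := D.symm.F_rel n S _ h
      have h2 : (fun a => D.symm.F ((D.F ∘ v) a)) = v := funext fun a => D.F_F (v a)
      rw [h2] at h1
      exact h1
    · exact D.F_rel n S v

end

/-- change of the index set -/
noncomputable def reidx (c : Q → T) (e : J ≃ J') : Cn c J ≃[L] Cn c J' where
  toFun z := ⟨(z.1.1, fun i => z.1.2 (e.symm i)), by
    refine (z.2.image e).subset ?_
    intro i hi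
    exact ⟨e.symm i, hi, e.apply_symm_apply i⟩⟩
  invFun z := ⟨(z.1.1, fun i => z.1.2 (e i)), by
    refine (z.2.image e.symm).subset ?_
    intro i hi
    exact ⟨e i, hi, e.symm_apply_apply i⟩⟩
  left_inv z := cn_ext rfl fun j => by
    show z.1.2 (e.symm (e j)) = _
    rw [e.symm_apply_apply]
  right_inv z := cn_ext rfl fun j => by
    show z.1.2 (e (e.symm j)) = _
    rw [e.apply_symm_apply]
  map_fun' f := isEmptyElim f
  map_rel' {n} S v := by
    constructor
    · rintro ⟨h1, h2⟩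
      refine ⟨h1, fun j => ?_⟩
      have h3 : Structure.RelMap S fun a => (v a).1.2 (e.symm (e j)) := h2 (e j)
      rw [e.symm_apply_apply] at h3
      exact h3
    · rintro ⟨h1, h2⟩
      exact ⟨h1, fun i => h2 (e.symm i)⟩

omit [L.Structure Q] [L.Structure T] [L.Structure Q'] [L.Structure T'] [L.IsRelational] in
theorem exists_equiv_sum (K : Type) [Infinite K] {G : Set J} (hG : G.Finite) :
    Nonempty (K ≃ K ⊕ G) := by
  have : Finite G := hG
  have h1 : Cardinal.mk (K ⊕ G) = Cardinal.mk K := by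
    rw [Cardinal.mk_sum, Cardinal.lift_id, Cardinal.lift_id]
    exact Cardinal.add_eq_left (Cardinal.aleph0_le_mk K)
      ((Cardinal.lt_aleph0_of_finite G).le.trans (Cardinal.aleph0_le_mk K))
  exact Cardinal.eq.1 h1.symm

end

theorem TRF : StmTRF := by
  classical
  intro L _ σ Q T Q' T' J K _ _ _ _ _ _ _ _ _ _ _ _ c c' hc hc' ⟨Φ⟩
  rcases isEmpty_or_nonempty (Cn c J) with hE | ⟨⟨z0⟩⟩
  · have hQ : IsEmpty Q := ⟨fun q => hE.false (cst c J q)⟩
    have hQ' : IsEmpty Q' := ⟨fun q => hE.false (Φ.symm (cst c' J q))⟩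
    have hE1 : IsEmpty (Cn c K) := ⟨fun z => hQ.false z.1.1⟩
    have hE2 : IsEmpty (Cn c' K) := ⟨fun z => hQ'.false z.1.1⟩
    refine ⟨⟨Equiv.equivOfIsEmpty _ _, fun f => isEmptyElim f, ?_⟩⟩
    intro n S v
    let v0 : Fin n → Cn c J := fun a => isEmptyElim (v a)
    have hn : IsEmpty (Fin n) := ⟨fun a => hE1.false (v a)⟩
    have h1 := StrongHomClass.map_rel Φ S v0
    obtain ⟨j⟩ : Nonempty J := inferInstance
    obtain ⟨k⟩ : Nonempty K := inferInstance
    constructor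
    · rintro ⟨h2, h3⟩
      have h4 : Structure.RelMap S (Φ ∘ v0) := by
        refine ⟨?_, fun j => ?_⟩
        · convert h2
        · convert h3 k
      have h5 := h1.1 h4
      refine ⟨?_, fun k => ?_⟩
      · convert h5.1
      · convert h5.2 j
    · rintro ⟨h2, h3⟩
      have h4 : Structure.RelMap S v0 := by
        refine ⟨?_, fun j => ?_⟩
        · convert h2
        · convert h3 k
      have h5 := h1.2 h4
      refine ⟨?_, fun k => ?_⟩
      · convert h5.1
      · convert h5.2 j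
  have hgood := good hc hc' Φ z0
  have hgood' := good hc' hc Φ.symm (Φ z0)
  have hsym : ∀ j i, Good Φ j i ↔ Good Φ.symm i j := by
    intro j i
    constructor
    · rintro ⟨h1, h2⟩
      refine ⟨fun u v => ?_, fun u => ?_⟩
      · have := h1 (Φ.symm u) (Φ.symm v)
        rw [Φ.apply_symm_apply, Φ.apply_symm_apply] at this
        exact this.symm
      · have := h2 (Φ.symm u)
        rw [Φ.apply_symm_apply] at this
        exact this.symm
    · rintro ⟨h1, h2⟩
      refine ⟨fun u v => ?_, fun u => ?_⟩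
      · have := h1 (Φ u) (Φ v)
        rw [Φ.symm_apply_apply, Φ.symm_apply_apply] at this
        exact this.symm
      · have := h2 (Φ u)
        rw [Φ.symm_apply_apply] at this
        exact this.symm
  obtain ⟨j0, hj0⟩ := hgood.infinite_compl.nonempty
  have hj0' : ∃ i, Good Φ j0 i := not_not.1 hj0
  obtain ⟨i0, hi0⟩ := hj0'
  let G : Set J := {j | ¬ ∃ i, Good Φ j i}
  let G' : Set J := {i | ¬ ∃ j, Good Φ.symm i j}
  have D : Dat (L := L) (c := c) (c' := c') (fun u => Φ u) (fun u => Φ.symm u) G G'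
      (fun t => (Φ (chg z0 j0 t)).1.2 i0) (fun t => (Φ.symm (chg (Φ z0) i0 t)).1.2 j0) j0 i0 := by
    refine ⟨fun u => Φ.symm_apply_apply u, fun u => Φ.apply_symm_apply u, ?_, ?_, hgood, hgood',
      ?_, ?_, ?_, ?_, ?_, ?_, ?_, ?_⟩
    · intro n S v h
      exact (StrongHomClass.map_rel Φ S v).2 h
    · intro n S v h
      exact (StrongHomClass.map_rel Φ.symm S v).2 h
    · intro i hi
      obtain ⟨j, hj⟩ : ∃ j, Good Φ.symm i j := not_not.1 hi
      refine ⟨j, ?_, ?_⟩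
      · intro h
        exact h ⟨i, (hsym j i).2 hj⟩
      · intro u
        exact (((hsym j i).2 hj).2 u).1
    · intro j hj
      obtain ⟨i, hi⟩ : ∃ i, Good Φ j i := not_not.1 hj
      refine ⟨i, ?_, ?_⟩
      · intro h
        exact h ⟨j, (hsym j i).1 hi⟩
      · intro u
        exact (((hsym j i).1 hi).2 u).1
    · exact fun h => h ⟨i0, hi0⟩
    · exact fun h => h ⟨j0, (hsym j0 i0).1 hi0⟩
    · intro u
      exact (hi0.2 u).1
    · intro u
      exact (((hsym j0 i0).1 hi0).2 u).1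
    · intro u
      show (Φ (chg z0 j0 (u.1.2 j0))).1.2 i0 = (Φ u).1.2 i0
      rw [← hi0.1, chg_self]
    · intro u
      show (Φ.symm (chg (Φ z0) i0 (u.1.2 i0))).1.2 j0 = (Φ.symm u).1.2 j0
      rw [← ((hsym j0 i0).1 hi0).1, chg_self]
  obtain ⟨e⟩ := exists_equiv_sum K hgood
  obtain ⟨e'⟩ := exists_equiv_sum K hgood'
  exact ⟨(reidx c' e'.symm).comp ((D.iso (K := K)).comp (reidx c e))⟩

end Pool.Agent.N415.DV
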